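import Pool.Agent.H364_Fill.Dil

/-!
# Filling exponents of stratified nilpotent Lie groups

Let `G` be a stratified nilpotent Lie group of dimension `n` and homogeneous dimension
`Q = ∑ i * dim V_i`. If the filling function of `G` for `k`-cycles is at most `r ^ α_k` for
`k = 1, …, n - 1` (up to the usual equivalence), then `α_1 * … * α_(n-1) ≥ Q`.

The product of the Euclidean exponents `(k + 1) / k` is `n`, and `Q > n` when `G` is not abelian.
So every non-abelian stratified group has a dimension in which the filling function is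
super-Euclidean, even by a power of `r`.

Idea of the proof. Tuples of points at mutual distance `ρ` are filled inductively; the chains of
top dimension have volume `O(ρ ^ (α_1 * … * α_(n-1)))`. Their signed volumes form a cochain
which is cohomologous, through bounded cochains, to the volume form. It is evaluated on a
partition of unity obtained by dilation from the unit scale, whose Jacobians are `O(ρ ^ (-Q))`.
As the growth of the group is polynomial, the average of the product cannot tend to zero.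
-/

open scoped ENNReal NNReal Topology

namespace Pool.Agent.Results.MP_b8ac35_gt.FillingExponents

open Pool.Agent.TH630 Pool.Agent.H364Fill

variable {n : ℕ}

theorem prod_eucl (n : ℕ) (hn : 1 ≤ n) : ∏ k ∈ Finset.Ico 1 n, (((k : ℝ) + 1) / k) = n := by
  induction n, hn using Nat.le_induction with
  | base => simp
  | succ n hn ih =>
    rw [Finset.prod_Ico_succ_top hn, ih]
    have : (n : ℝ) ≠ 0 := by positivity
    push_cast
    field_simp

theorem FVle_mono {G : NilLaw n} {B : Matrix (Fin n) (Fin n) ℝ} {k : ℕ} {β β' : ℝ}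
    (h : β ≤ β') (h1 : 1 ≤ β') (hF : FVle G B k β) : FVle G B k β' := by
  obtain ⟨C, hC, hb⟩ := hF
  set C' : ℝ := max C (max 1 (C * C ^ β)) with hC'
  have hC1 : 1 ≤ C' := (le_max_left _ _).trans (le_max_right _ _)
  have hC2 : C ≤ C' := le_max_left _ _
  have hC3 : C * C ^ β ≤ C' := (le_max_right _ _).trans (le_max_right _ _)
  have hC0 : 0 < C' := by linarith
  refine ⟨C', hC0, fun r hr => (hb r hr).trans (ENNReal.ofReal_le_ofReal ?_)⟩
  have e1 : (C * r + C) ^ β = C ^ β * (r + 1) ^ β := by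
    rw [← Real.mul_rpow hC.le (by linarith)]
    congr 1
    ring
  have e2 : (r + 1) ^ β ≤ (r + 1) ^ β' := Real.rpow_le_rpow_of_exponent_le (by linarith) h
  have e3 : (C' * r + C') ^ β' = C' ^ β' * (r + 1) ^ β' := by
    rw [← Real.mul_rpow hC0.le (by linarith)]
    congr 1
    ring
  have e4 : 1 ≤ C' ^ β' := Real.one_le_rpow hC1 (by linarith)
  have e5 : 0 < (r + 1) ^ β' := Real.rpow_pos_of_pos (by linarith) _
  have e6 : C * (C * r + C) ^ β ≤ C' * (C' * r + C') ^ β' := by
    rw [e1, e3]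
    calc C * (C ^ β * (r + 1) ^ β) ≤ C * (C ^ β * (r + 1) ^ β') := by gcongr
      _ = (C * C ^ β) * (r + 1) ^ β' := by ring
      _ ≤ C' * (r + 1) ^ β' := by gcongr
      _ = C' * (1 * (r + 1) ^ β') := by ring
      _ ≤ C' * (C' ^ β' * (r + 1) ^ β') := by gcongr
  have e7 : C * r ≤ C' * r := by gcongr
  linarith

theorem lt_hdim {G : NilLaw n} (S : Stratified G) (hG : ∃ x y, G.mul x y ≠ G.mul y x) :
    n < S.hdim := by
  have hj : ∃ j, 2 ≤ S.w j := by
    by_contra hcon
    push Not at hcon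
    obtain ⟨x, y, hxy⟩ := hG
    have key : ∀ x y : Fin n → ℝ, G.mul x y = x + y := by
      intro x y
      funext j
      exact mul_low S le_rfl le_rfl (mem_ge_one S x) (mem_ge_one S y) (hcon j)
    exact hxy (by rw [key, key, add_comm])
  obtain ⟨j, hj⟩ := hj
  have h1 : ∑ _j : Fin n, 1 < ∑ j, S.w j :=
    Finset.sum_lt_sum (fun i _ => S.w_pos i) ⟨j, Finset.mem_univ j, hj⟩
  simpa [Stratified.hdim] using h1

theorem result (G : NilLaw n) (S : Stratified G) (B : Matrix (Fin n) (Fin n) ℝ)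
    (hB : B.PosDef) :
    (∀ α : ℕ → ℝ, (∀ k, 1 ≤ k → k + 1 ≤ n → 1 ≤ α k ∧ FVle G B k (α k)) →
      (S.hdim : ℝ) ≤ ∏ k ∈ Finset.Ico 1 n, α k) ∧
    ((∃ x y, G.mul x y ≠ G.mul y x) →
      n < S.hdim ∧ ∃ k : ℕ, 1 ≤ k ∧ k + 1 ≤ n ∧
        ∀ β : ℝ, β < ((k : ℝ) + 1) / k * ((S.hdim : ℝ) / n) ^ (((n : ℝ) - 1)⁻¹) →
          ¬ FVle G B k β) := by
  have main : ∀ α : ℕ → ℝ, (∀ k, 1 ≤ k → k + 1 ≤ n → 1 ≤ α k ∧ FVle G B k (α k)) →
      (S.hdim : ℝ) ≤ ∏ k ∈ Finset.Ico 1 n, α k := fun α h =>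
    hdim_le S B hB (fun j hj => (h (j + 1) (by omega) (by omega)).1)
      (fun j hj => (h (j + 1) (by omega) (by omega)).2)
  refine ⟨main, fun hG => ?_⟩
  have hlt := lt_hdim S hG
  refine ⟨hlt, ?_⟩
  by_contra hcon
  push Not at hcon
  set q : ℝ := (S.hdim : ℝ) / n with hq
  have hn1 : 1 ≤ n := by
    by_contra h0
    obtain rfl : n = 0 := by omega
    obtain ⟨x, y, hxy⟩ := hG
    exact hxy (Subsingleton.elim _ _)
  have hnpos : (0 : ℝ) < n := by exact_mod_cast hn1
  have hltR : (n : ℝ) < S.hdim := by exact_mod_cast hlt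
  have hq1 : 1 < q := by rw [hq, one_lt_div hnpos]; exact hltR
  rcases Nat.lt_or_ge n 2 with hn2 | hn2
  · obtain rfl : n = 1 := by omega
    have h1 := main (fun _ => 1) (fun k h1 h2 => absurd h2 (by omega))
    simp only [Finset.Ico_self, Finset.prod_empty] at h1
    have h2 : (1 : ℝ) < S.hdim := by exact_mod_cast hlt
    linarith
  · have hn1R : (0 : ℝ) < (n : ℝ) - 1 := by
      have : (2 : ℝ) ≤ n := by exact_mod_cast hn2
      linarith
    have hch : ∀ k : ℕ, ∃ β : ℝ, 1 ≤ k → k + 1 ≤ n →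
        β < ((k : ℝ) + 1) / k * q ^ (((n : ℝ) - 1)⁻¹) ∧ FVle G B k β := by
      intro k
      by_cases h : 1 ≤ k ∧ k + 1 ≤ n
      · obtain ⟨β, h1, h2⟩ := hcon k h.1 h.2
        exact ⟨β, fun _ _ => ⟨h1, h2⟩⟩
      · exact ⟨0, fun h1 h2 => absurd ⟨h1, h2⟩ h⟩
    choose β hβ using hch
    have hγ : ∀ k : ℕ, 1 ≤ k → 1 < ((k : ℝ) + 1) / k * q ^ (((n : ℝ) - 1)⁻¹) := by
      intro k hk
      have hk0 : (0 : ℝ) < k := by exact_mod_cast hk
      have e1 : 1 < ((k : ℝ) + 1) / k := by rw [one_lt_div hk0]; linarith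
      have e2 : 1 < q ^ (((n : ℝ) - 1)⁻¹) := Real.one_lt_rpow hq1 (inv_pos.2 hn1R)
      nlinarith
    have h1 := main (fun k => max (β k) 1) (fun k hk1 hk2 =>
      ⟨le_max_right _ _, FVle_mono (le_max_left _ _) (le_max_right _ _) (hβ k hk1 hk2).2⟩)
    have h2 : ∏ k ∈ Finset.Ico 1 n, max (β k) 1 <
        ∏ k ∈ Finset.Ico 1 n, (((k : ℝ) + 1) / k * q ^ (((n : ℝ) - 1)⁻¹)) := by
      apply Finset.prod_lt_prod_of_nonempty
      · intro k _
        exact lt_of_lt_of_le one_pos (le_max_right _ _)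
      · intro k hk
        rw [Finset.mem_Ico] at hk
        exact max_lt (hβ k hk.1 (by omega)).1 (hγ k hk.1)
      · exact ⟨1, Finset.mem_Ico.2 ⟨le_rfl, by omega⟩⟩
    have h3 : ∏ k ∈ Finset.Ico 1 n, (((k : ℝ) + 1) / k * q ^ (((n : ℝ) - 1)⁻¹)) =
        S.hdim := by
      rw [Finset.prod_mul_distrib, prod_eucl n hn1, Finset.prod_const, Nat.card_Ico,
        ← Real.rpow_natCast, ← Real.rpow_mul (by positivity), Nat.cast_sub hn1, Nat.cast_one,
        inv_mul_cancel₀ hn1R.ne', Real.rpow_one, hq]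
      field_simp
    linarith

end Pool.Agent.Results.MP_b8ac35_gt.FillingExponents
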